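import Mathlib

open Finset

namespace Pool.Agent.H.MP_3242d6_co

variable {F : Type} [Field F] [Fintype F] [DecidableEq F] [CharP F 2] {d : ℕ}

omit [Fintype F] in
theorem cos {U : Finset F} (h0 : 0 ∈ U) (hU : ∀ u ∈ U, ∀ v ∈ U, u + v ∈ U) (f : F → F) {c : F}
    (hc : ∀ x, ∑ y ∈ U, f (x + y) = c) (B : Finset F) (hB : ∀ x ∈ B, ∀ u ∈ U, x + u ∈ B) :
    ∃ m, #B = m * #U ∧ ∑ x ∈ B, f x = m * c := by
  induction B using Finset.strongInduction with
  | H B ih =>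
  rcases B.eq_empty_or_nonempty with rfl | ⟨x, hx⟩
  · exact ⟨0, by simp⟩
  have s : U.image (x + ·) ⊆ B := image_subset_iff.2 (hB x hx)
  obtain ⟨m, h1, h2⟩ := ih (B \ U.image (x + ·))
    (sdiff_ssubset s ⟨x, mem_image.2 ⟨0, h0, add_zero x⟩⟩) fun y hy u hu => by
      rw [mem_sdiff] at hy ⊢
      refine ⟨hB y hy.1 u hu, fun c => hy.2 ?_⟩
      obtain ⟨v, hv, e⟩ := mem_image.1 c
      exact mem_image.2 ⟨v + u, hU v hv u hu, by
        rw [← add_assoc, e, add_assoc, CharTwo.add_self_eq_zero, add_zero]⟩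
  refine ⟨m + 1, ?_, ?_⟩
  · rw [← card_sdiff_add_card_eq_card s, h1, card_image_of_injective _ (add_right_injective x)]
    ring
  · rw [← sum_sdiff s, h2, sum_image fun _ _ _ _ => add_left_cancel, hc]
    push_cast
    ring

omit [Fintype F] in
theorem ps {U : Finset F} (hU : ∀ u ∈ U, ∀ v ∈ U, u + v ∈ U) (hd : d < #U) :
    ∃ c, (∀ x, ∑ y ∈ U, (x + y) ^ d = c) ∧ (d + 1 < #U → c = 0) := by
  have p : ∀ y ∈ U, ∏ z ∈ U.erase y, (y - z) = ∏ z ∈ U.erase 0, z := fun y hy => by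
    refine prod_bij' (fun z _ => y + z) (fun z _ => y + z) ?_ ?_ ?_ ?_ ?_
    · intro z hz
      rw [mem_erase] at hz ⊢
      exact ⟨fun c => hz.1 (CharTwo.add_eq_zero.1 c).symm, hU _ hy _ hz.2⟩
    · intro z hz
      rw [mem_erase] at hz ⊢
      exact ⟨by simpa using hz.1, hU _ hy _ hz.2⟩
    all_goals simp [← add_assoc, CharTwo.sub_eq_add, CharTwo.add_self_eq_zero]
  have p0 : ∏ z ∈ U.erase 0, z ≠ 0 := prod_ne_zero_iff.2 fun z hz => (mem_erase.1 hz).1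
  refine ⟨(∏ z ∈ U.erase 0, z) * if d + 1 = #U then 1 else 0, fun x => ?_, fun h => by simp [h.ne]⟩
  have := Lagrange.coeff_eq_sum (s := U) (v := id) (Set.injOn_id _)
    (P := (Polynomial.X + Polynomial.C x) ^ d) (by
      rw [Polynomial.degree_pow, Polynomial.degree_X_add_C]
      simpa using hd)
  rw [sum_congr rfl fun y hy => by simp only [id]; rw [p y hy], ← sum_div, eq_div_iff p0] at this
  simp only [Polynomial.eval_pow, Polynomial.eval_add, Polynomial.eval_X, Polynomial.eval_C,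
    Polynomial.coeff_X_add_C_pow] at this
  simp only [add_comm x]
  rw [← this, mul_comm]
  split_ifs with c
  · simp [← c]
  · simp [Nat.choose_eq_zero_of_lt (show d < #U - 1 by omega)]

theorem pw {U : Finset F} (h0 : 0 ∈ U) (hU : ∀ u ∈ U, ∀ v ∈ U, u + v ∈ U) : ∃ e, #U = 2 ^ e := by
  obtain ⟨m, h, -⟩ := cos h0 hU (fun _ => 0) (c := 0) (by simp) univ (by simp)
  obtain ⟨n, -, e⟩ := FiniteField.card F 2
  obtain ⟨k, -, h⟩ := (Nat.dvd_prime_pow Nat.prime_two).1 (e ▸ (Dvd.intro_left m h.symm : _ ∣ Fintype.card F))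
  exact ⟨k, h⟩

def Inv (d : ℕ) (B : Finset F) : Prop := ∀ y ∈ B, ∀ z, z ^ d = y ^ d → z ∈ B

def O (d : ℕ) (x : F) : Finset F := {z | z ^ d = x ^ d}

theorem sO (ho : Odd d) (hO : ∀ x : F, x ≠ 0 → #(O d x) = d) {x : F} (hx : x ≠ 0) :
    ∑ z ∈ O d x, z ^ d = x ^ d := by
  rw [sum_congr rfl (s₁ := O d x) (g := fun _ => x ^ d) fun z hz => (mem_filter.1 hz).2, sum_const,
    hO x hx, nsmul_eq_mul, CharTwo.natCast_eq_ite, if_neg (Nat.not_even_iff_odd.2 ho), one_mul]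

theorem kl (ho : Odd d) (hO : ∀ x : F, x ≠ 0 → #(O d x) = d) {B : Finset F} (hB : Inv d B)
    (hp : ∑ x ∈ B, x ^ d ≠ 0) {u : F} (hu : u ≠ 0) (h : ∀ x ∈ B, x + u ∈ B) :
    ∑ x ∈ B, x ^ d = u ^ d ∧ (∀ z w : F, z ^ d = w ^ d → z = w ∨ (z + w) ^ d = z ^ d) ∧
      (∀ x ∈ B, ∀ v, v ^ d = u ^ d → x + v ∈ B) ∧
      ∃ m e, Odd m ∧ #B = m * (d + 1) ∧ d + 1 = 2 ^ e := by
  set U : Finset F := {v | ∀ x ∈ B, x + v ∈ B}
  have d0 := ho.pos.ne'
  have h0 : 0 ∈ U := by simp [U]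
  have hU : ∀ u ∈ U, ∀ v ∈ U, u + v ∈ U := fun u hu v hv => by
    simp only [U, mem_filter, mem_univ, true_and] at hu hv ⊢
    exact fun x hx => add_assoc x u v ▸ hv _ (hu x hx)
  have h1 : ∀ x ∈ B, ∀ v, v ^ d = u ^ d → x + v ∈ B := fun x hx v hv => by
    have v0 : v ≠ 0 := fun c => hu (pow_eq_zero_iff d0 |>.1 (by rw [← hv, c, zero_pow d0]))
    have e : (u / v) ^ d = 1 := by rw [div_pow, hv, div_self (pow_ne_zero _ hu)]
    refine hB _ (h (u / v * x) (hB x hx _ (by rw [mul_pow, e, one_mul]))) _ ?_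
    rw [show u / v * x + u = u / v * (x + v) by field_simp, mul_pow, e, one_mul]
  have n0 : 0 ∉ O d u := by simp [O, d0, (pow_ne_zero d hu).symm]
  have s : insert 0 (O d u) ⊆ U := insert_subset h0 fun v hv =>
    mem_filter.2 ⟨mem_univ _, fun x hx => h1 x hx v (mem_filter.1 hv).2⟩
  have c1 : #(insert 0 (O d u)) = d + 1 := by rw [card_insert_of_notMem n0, hO u hu]
  have c2 := c1 ▸ card_le_card s
  obtain ⟨c, hc, hc'⟩ := ps hU c2
  obtain ⟨m, e1, e2⟩ := cos h0 hU (· ^ d) hc B fun x hx v hv => (mem_filter.1 hv).2 x hx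
  have c3 : #U = d + 1 := le_antisymm (not_lt.1 fun l => hp (by simp [e2, hc' l])) c2
  have eU := eq_of_subset_of_card_le s (by omega)
  have om : Odd m := Nat.not_even_iff_odd.1 fun l => hp (by simp [e2, CharTwo.natCast_eq_ite, l])
  obtain ⟨e, he⟩ := pw h0 hU
  refine ⟨?_, fun z w hz => ?_, h1, m, e, om, c3 ▸ e1, c3 ▸ he⟩
  · rw [e2, ← hc 0, ← eU, sum_insert n0, CharTwo.natCast_eq_ite,
      if_neg (Nat.not_even_iff_odd.2 om)]
    simp [d0, sO ho hO hu]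
  by_cases z0 : z = 0
  · exact .inl (z0.trans (pow_eq_zero_iff d0 |>.1 (by rw [← hz, z0, zero_pow d0])).symm)
  have := hU u (s (by simp [O])) (u / z * w) (s (by
    simp [O, mul_pow, div_pow, ← hz, pow_ne_zero d z0]))
  rw [← eU, show u + u / z * w = u / z * (z + w) by field_simp] at this
  simp only [O, mem_insert, mem_filter, mem_univ, true_and, mul_pow, div_pow] at this
  refine this.imp (fun c => CharTwo.add_eq_zero.1 (by simpa [hu, z0] using c)) fun c => ?_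
  field_simp at c
  exact c

omit [CharP F 2] [Fintype F] in
theorem sb {B : Finset F} {a b : F} (ha : a ≠ 0) (h : ∀ x ∈ B, a * x + b ∈ B) :
    B.image (a * · + b) = B :=
  eq_of_subset_of_card_le (image_subset_iff.2 h) (card_image_of_injective _ fun _ _ e =>
    mul_left_cancel₀ ha (add_right_cancel e)).ge

omit [CharP F 2] [Fintype F] in
theorem sb' {B : Finset F} {a b : F} (ha : a ≠ 0) (h : ∀ x ∈ B, a * x + b ∈ B) (f : F → F) :
    ∑ x ∈ B, f (a * x + b) = ∑ x ∈ B, f x := by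
  conv_rhs => rw [← sb ha h]
  rw [sum_image fun x _ y _ e => mul_left_cancel₀ ha (add_right_cancel e)]

def Rig (d : ℕ) (B : Finset F) : Prop :=
  ∀ a b : F, a ≠ 0 → (∀ x ∈ B, a * x + b ∈ B) → b = 0 ∧ a ^ d = 1

theorem fin (hO : ∀ x : F, x ≠ 0 → #(O d x) = d) (d0 : d ≠ 0) {B : Finset F} (hB : Inv d B)
    (hp : ∑ x ∈ B, x ^ d ≠ 0) (hc : d = 1 → Even #B) (h : ∀ u, (∀ x ∈ B, x + u ∈ B) → u = 0) :
    Rig d B := fun a b ha g => by
  have s := sb' ha g (· ^ d)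
  by_cases c : d = 1
  · subst c
    simp only [pow_one, sum_add_distrib, sum_const, nsmul_eq_mul,
      CharTwo.natCast_eq_ite, if_pos (hc rfl), zero_mul, add_zero] at s hp ⊢
    rw [← mul_sum] at s
    obtain rfl := (mul_left_eq_self₀.1 s).resolve_right hp
    exact ⟨h b (by simpa using g), rfl⟩
  obtain ⟨z, hz, z1⟩ := exists_mem_ne (s := O d (1 : F)) (by rw [hO 1 one_ne_zero]; omega) 1
  replace hz : z ^ d = 1 := by simpa [O] using hz
  have z0 : z ≠ 0 := fun e => by simp [e, d0] at hz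
  obtain rfl : b = 0 := by
    have := h ((1 + z) * b) fun y hy => by
      obtain ⟨x, hx, e⟩ := mem_image.1 ((sb ha g).ge (hB y hy (z⁻¹ * y) (by simp [mul_pow, hz])))
      convert g (z * x) (hB x hx _ (by simp [mul_pow, hz])) using 1
      rw [← mul_inv_cancel_left₀ z0 y, ← e]
      linear_combination (z * b) * CharTwo.two_eq_zero (R := F)
    exact (mul_eq_zero.1 this).resolve_left fun e => z1 (CharTwo.add_eq_zero.1 e).symm
  simp only [add_zero, mul_pow, ← mul_sum] at s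
  exact ⟨rfl, (mul_left_eq_self₀.1 s).resolve_right hp⟩

theorem sw (ho : Odd d) (hO : ∀ x : F, x ≠ 0 → #(O d x) = d) {M B : Finset F} (hM : Inv d M)
    (hB : Inv d B) (s : B ⊆ M) {x y : F} (hx : x ∈ B) (x0 : x ≠ 0) (hy : y ∈ M) (hy' : y ∉ B)
    (y0 : y ≠ 0) : ∃ C ⊆ M, Inv d C ∧ #C = #B ∧ ∑ z ∈ C, z ^ d = ∑ z ∈ B, z ^ d + x ^ d + y ^ d ∧
      ∀ z, z ∈ C ↔ (z ∈ B ∧ z ^ d ≠ x ^ d) ∨ z ^ d = y ^ d := by
  have s1 : O d x ⊆ B := fun z hz => hB x hx z (mem_filter.1 hz).2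
  have s2 : Disjoint (B \ O d x) (O d y) := disjoint_left.2 fun z hz h =>
    hy' (hB z (mem_sdiff.1 hz).1 y (mem_filter.1 h).2.symm)
  have m : ∀ z, z ∈ B \ O d x ∪ O d y ↔ (z ∈ B ∧ z ^ d ≠ x ^ d) ∨ z ^ d = y ^ d := by simp [O]
  refine ⟨B \ O d x ∪ O d y, fun z hz => ?_, fun z hz w e => ?_, ?_, ?_, m⟩
  · exact ((m z).1 hz).elim (fun h => s h.1) (hM y hy z)
  · exact (m w).2 (((m z).1 hz).imp (fun h => ⟨hB z h.1 w e, e ▸ h.2⟩) e.trans)
  · rw [card_union_of_disjoint s2, ← card_sdiff_add_card_eq_card s1, hO x x0, hO y y0]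
  · rw [sum_union s2, ← sum_sdiff s1, sO ho hO x0, sO ho hO y0, add_assoc _ (x ^ d) (x ^ d),
      CharTwo.add_self_eq_zero, add_zero]

theorem st (ho : Odd d) (hO : ∀ x : F, x ≠ 0 → #(O d x) = d) {M : Finset F} (hM : Inv d M)
    (h0 : 0 ∈ M) {j t : ℕ} (ht : j = t * d ∨ j = t * d + 1) (t0 : t ≠ 0) (hj : j + 1 < #M) :
    ∃ B ⊆ M, Inv d B ∧ #B = j ∧ ∑ z ∈ B, z ^ d ≠ 0 := by
  have d0 := ho.pos.ne'
  have a : ∀ t, t * d < #M → ∃ B ⊆ M, Inv d B ∧ #B = t * d ∧ 0 ∉ B := fun t ht => by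
    induction t with
    | zero => exact ⟨∅, by simp [Inv]⟩
    | succ t ih =>
      rw [add_mul, one_mul] at ht ⊢
      obtain ⟨B, s, h1, h2, h3⟩ := ih (by omega)
      obtain ⟨y, hy, hy'⟩ := exists_mem_notMem_of_card_lt_card (s := insert 0 B) (t := M)
        (by rw [card_insert_of_notMem h3]; omega)
      rw [mem_insert, not_or] at hy'
      refine ⟨B ∪ O d y, union_subset s fun z hz => hM y hy z (mem_filter.1 hz).2,
        fun z hz w e => ?_, ?_, by simp [O, h3, d0, (pow_ne_zero d hy'.1).symm]⟩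
      · simp only [O, mem_union, mem_filter, mem_univ, true_and] at hz ⊢
        exact hz.imp (fun h => h1 z h w e) e.trans
      · rw [card_union_of_disjoint (disjoint_left.2 fun z hz h =>
          hy'.2 (h1 z hz y (mem_filter.1 h).2.symm)), h2, hO y hy'.1]
  obtain ⟨B, s, h1, h2, x, hx, x0⟩ : ∃ B ⊆ M, Inv d B ∧ #B = j ∧ ∃ x ∈ B, x ≠ 0 := by
    obtain ⟨B, s, h1, h2, h3⟩ := a t (by omega)
    obtain ⟨x, hx⟩ := card_ne_zero.1 (h2 ▸ mul_ne_zero t0 d0)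
    rcases ht with rfl | rfl
    · exact ⟨B, s, h1, h2, x, hx, fun e => h3 (e ▸ hx)⟩
    refine ⟨insert 0 B, insert_subset h0 s, fun z hz w e => ?_, by rw [card_insert_of_notMem h3, h2],
      x, mem_insert_of_mem hx, fun e => h3 (e ▸ hx)⟩
    rw [mem_insert] at hz ⊢
    exact hz.imp (fun h => by simpa [h, d0] using e) fun h => h1 z h w e
  by_cases c : ∑ z ∈ B, z ^ d = 0
  · obtain ⟨y, hy, hy'⟩ := exists_mem_notMem_of_card_lt_card (s := insert 0 B) (t := M)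
      ((card_insert_le _ _).trans_lt (by omega))
    rw [mem_insert, not_or] at hy'
    obtain ⟨C, k1, k2, k3, k4, -⟩ := sw ho hO hM h1 s hx x0 hy hy'.2 hy'.1
    refine ⟨C, k1, k2, k3.trans h2, fun e => hy'.2 (h1 x hx y ?_)⟩
    rw [k4, c, zero_add] at e
    exact (CharTwo.add_eq_zero.1 e).symm
  · exact ⟨B, s, h1, h2, c⟩

end Pool.Agent.H.MP_3242d6_co
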