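import Pool.Agent.H.MP_3242d6_co.A

open Finset

namespace Pool.Agent.H.MP_3242d6_co

variable {F : Type} [Field F] [Fintype F] [DecidableEq F] [CharP F 2] {d : ℕ}

theorem core (ho : Odd d) (hO : ∀ x : F, x ≠ 0 → #(O d x) = d) {M : Finset F} (hM : Inv d M)
    (h0 : 0 ∈ M) (hA : ∀ u ∈ M, ∀ v ∈ M, u + v ∈ M) {j t : ℕ} (ht : j = t * d ∨ j = t * d + 1)
    (hj : 2 * j ≤ #M) (j0 : j ≠ 0) (hp : ∀ e, j ≠ 2 ^ e) :
    ∃ B ⊆ M, Inv d B ∧ #B = j ∧ Rig d B := by
  have d0 := ho.pos.ne'
  have j3 : 3 ≤ j := by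
    have := hp 0
    have := hp 1
    omega
  have aa := CharTwo.add_self_eq_zero (R := F)
  by_cases c : d = 1 ∧ Odd j
  · obtain ⟨rfl, oj⟩ := c
    obtain ⟨B, s, -, h2, h3⟩ := st ho hO hM h0 (j := j - 2) (t := j - 2) (by simp) (by omega)
      (by omega)
    simp only [pow_one] at h3
    set u := ∑ z ∈ B, z with hu
    have l : 2 * j < #M := by
      obtain ⟨e, he⟩ := pw h0 hA
      refine hj.lt_of_ne fun h => ?_
      cases e with
      | zero => omega
      | succ e => exact hp e (by omega)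
    set Z := B ∪ B.image (· + u) ∪ {0, u}
    have cZ : #Z ≤ 2 * j - 2 := (card_union_le _ _).trans (by
      have := card_union_le B (B.image (· + u))
      have := card_image_le (s := B) (f := (· + u))
      have := card_le_two (a := 0) (b := u)
      omega)
    have mZ : ∀ y ∉ Z, y ∉ B ∧ y + u ∉ B ∧ y ≠ 0 ∧ y + u ≠ 0 := fun y hy => by
      simp only [Z, mem_union, mem_image, mem_insert, mem_singleton, not_or, not_exists,
        not_and] at hy
      exact ⟨hy.1.1, fun h => hy.1.2 _ h (by rw [add_assoc, aa, add_zero]), hy.2.1,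
        fun h => hy.2.2 (CharTwo.add_eq_zero.1 h)⟩
    obtain ⟨y, hy, hy', e⟩ : ∃ y ∈ M, y ∉ Z ∧ y⁻¹ + (y + u)⁻¹ + ∑ z ∈ B, z⁻¹ ≠ 0 := by
      by_contra! h
      obtain ⟨x, hx, hx'⟩ := exists_mem_notMem_of_card_lt_card (s := Z) (t := M) (by omega)
      obtain ⟨y, hy, hy'⟩ := exists_mem_notMem_of_card_lt_card (s := Z ∪ {x, x + u}) (t := M) (by
        have := card_union_le Z {x, x + u}
        have := card_le_two (a := x) (b := x + u)
        omega)
      simp only [mem_union (s := Z), mem_insert, mem_singleton, not_or] at hy'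
      have e := add_right_cancel ((h x hx hx').trans (h y hy hy'.1).symm)
      obtain ⟨-, -, a, b⟩ := mZ x hx'
      obtain ⟨-, -, a', b'⟩ := mZ y hy'.1
      field_simp at e
      have : u * ((y + x) * (y + (x + u))) = 0 := by
        linear_combination e + (-y * (y + u) * x + x * (x + u) * y + u * x * y + u * x ^ 2 +
          u ^ 2 * x) * CharTwo.two_eq_zero (R := F)
      simp [h3, CharTwo.add_eq_zero, hy'.2.1, hy'.2.2] at this
    obtain ⟨k1, k2, -, -⟩ := mZ y hy'
    have k3 : y ∉ insert (y + u) B := by simp [k1, h3]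
    refine ⟨insert y (insert (y + u) B), insert_subset hy (insert_subset (hA _ hy _
      (sum_induction _ (· ∈ M) (fun a b h h' => hA a h b h') h0 s)) s), fun y hy z e => ?_, ?_,
      fun a b ha g => ?_⟩
    · rwa [show z = y by simpa using e]
    · rw [card_insert_of_notMem k3, card_insert_of_notMem k2]
      omega
    have s1 := sb' ha g id
    simp only [id, sum_add_distrib, sum_const, nsmul_eq_mul] at s1
    rw [← mul_sum, sum_insert k3, sum_insert k2, card_insert_of_notMem k3, card_insert_of_notMem k2,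
      ← hu, add_assoc y u, aa, add_zero, aa, show #B + 1 + 1 = j by omega, CharTwo.natCast_eq_ite,
      if_neg (Nat.not_even_iff_odd.2 oj)] at s1
    obtain rfl : b = 0 := by simpa using s1
    have s2 := sb' ha g (·⁻¹)
    simp only [add_zero, mul_inv] at s2
    rw [← mul_sum, sum_insert k3, sum_insert k2, ← add_assoc] at s2
    exact ⟨rfl, by simpa using (mul_left_eq_self₀.1 s2).resolve_right e⟩
  have ev : d = 1 → Even j := fun h => Nat.not_odd_iff_even.1 fun h' => c ⟨h, h'⟩
  obtain ⟨B, s, h1, h2, h3⟩ := st ho hO hM h0 ht (by rintro rfl; omega) (by omega)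
  by_cases nt : ∀ u, (∀ x ∈ B, x + u ∈ B) → u = 0
  · exact ⟨B, s, h1, h2, fin hO d0 h1 h3 (h2 ▸ ev) nt⟩
  push Not at nt
  obtain ⟨u, hu, u0⟩ := nt
  obtain ⟨k1, k2, k3, m, e, om, k4, k5⟩ := kl ho hO h1 h3 u0 hu
  have m3 : 3 * (d + 1) ≤ j := by
    rw [← h2, k4]
    refine Nat.mul_le_mul_right _ ?_
    have : m ≠ 1 := fun h => hp e (by rw [← h2, k4, h, one_mul, k5])
    obtain ⟨k, rfl⟩ := om
    omega
  have cO : ∀ c : F, #{z | z ^ d = c} ≤ d := fun c => by
    rcases eq_empty_or_nonempty ({z | z ^ d = c} : Finset F) with h | ⟨z, hz⟩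
    · simp [h]
    rw [← (mem_filter.1 hz).2]
    by_cases z0 : z = 0
    · simp [z0, d0, filter_eq', Nat.one_le_iff_ne_zero]
    · exact (hO z z0).le
  obtain ⟨x, hx, hx'⟩ := exists_mem_notMem_of_card_lt_card (s := insert 0 (O d u)) (t := B)
    ((card_insert_le _ _).trans_lt (by rw [hO u u0]; omega))
  simp only [O, mem_insert, mem_filter, mem_univ, true_and, not_or] at hx'
  by_cases d1 : d = 1
  · subst d1
    have two := card_le_two (a := x) (b := x + u)
    obtain ⟨y, hy, hy'⟩ := exists_mem_notMem_of_card_lt_card (s := {x, x + u}) (t := B) (by omega)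
    obtain ⟨w, hw, hw'⟩ := exists_mem_notMem_of_card_lt_card
      (s := insert 0 B ∪ ((B.erase x).erase (x + u)).image (· + (y + u + x))) (t := M) (by
        refine (card_union_le _ _).trans_lt ?_
        have := card_insert_le 0 B
        have := card_image_le (s := (B.erase x).erase (x + u)) (f := (· + (y + u + x)))
        rw [card_erase_of_mem (by simp [u0, hu x hx]), card_erase_of_mem hx] at this
        omega)
    simp only [mem_union, mem_insert, mem_singleton, not_or, mem_image, mem_erase, not_exists,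
      not_and, and_imp] at hw' hy'
    obtain ⟨C, c1, c2, c3, c4, c5⟩ := sw ho hO hM h1 s hx hx'.1 hw hw'.1.2 hw'.1.1
    have p : ∑ z ∈ C, z ^ 1 ≠ 0 := fun h => hw'.1.2 (by
      rw [c4, k1, pow_one, pow_one, pow_one, CharTwo.add_eq_zero, add_comm] at h
      exact h ▸ hu x hx)
    refine ⟨C, c1, c2, c3.trans h2, fin hO d0 c2 p (c3 ▸ h2 ▸ ev) fun v hv => by_contra fun v0 => ?_⟩
    have := (kl ho hO c2 p v0 hv).1
    simp only [pow_one] at c4 c5 k1 this
    rw [c4, k1] at this
    subst this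
    rcases (c5 _).1 (hv y ((c5 y).2 (.inl ⟨hy, hy'.1⟩))) with h | h
    · refine hw'.2 _ (fun e => hw'.1.2 ?_) h.2 h.1 ?_
      · rwa [show w = y by linear_combination e - y * CharTwo.two_eq_zero (R := F)]
      · linear_combination (y + u + x) * CharTwo.two_eq_zero (R := F)
    · exact hy'.2 (by linear_combination h - (u + x) * CharTwo.two_eq_zero (R := F))
  obtain ⟨w, hw, hw'⟩ := exists_mem_notMem_of_card_lt_card
    (s := B ∪ insert 0 (O d u) ∪ univ.filter (· ^ d = u ^ d + x ^ d)) (t := M) (by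
      refine (card_union_le _ _).trans_lt ?_
      have := card_union_le B (insert 0 (O d u))
      have := card_insert_le 0 (O d u)
      have := cO (u ^ d + x ^ d)
      have := hO u u0
      omega)
  simp only [O, mem_union, mem_insert, mem_filter, mem_univ, true_and, not_or] at hw'
  obtain ⟨C, c1, c2, c3, c4, c5⟩ := sw ho hO hM h1 s hx hx'.1 hw hw'.1.1 hw'.1.2.1
  have p : ∑ z ∈ C, z ^ d ≠ 0 := fun h => hw'.2 (by
    rw [c4, k1, CharTwo.add_eq_zero] at h
    exact h.symm)
  refine ⟨C, c1, c2, c3.trans h2, fin hO d0 c2 p (absurd · d1) fun v hv => by_contra fun v0 => ?_⟩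
  have q := (kl ho hO c2 p v0 hv).1
  rw [c4, k1] at q
  have xC : x ∉ C := fun h => ((c5 x).1 h).elim (fun h => h.2 rfl)
    fun h => hw'.1.1 (h1 x hx w h.symm)
  have a : ∀ y, y ^ d = u ^ d → (x + y + v) ^ d = w ^ d := fun y hy => by
    have y0 : y ≠ 0 := fun e => pow_ne_zero d u0 (by rw [← hy, e, zero_pow d0])
    have b : ∀ y, y ≠ 0 → (x + y) ^ d = x ^ d → y ^ d = x ^ d := fun y y0 e => by
      have := (k2 _ _ e).resolve_left (by simpa using y0)
      rwa [add_right_comm, aa, zero_add, e] at this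
    refine ((c5 _).1 (hv _ ((c5 _).2 (.inl ⟨k3 x hx y hy, fun e =>
      hx'.2 ((b y y0 e).symm.trans hy)⟩)))).resolve_left fun h => ?_
    have h' := k3 _ h.1 y hy
    rw [add_right_comm, add_assoc x y, aa, add_zero] at h'
    by_cases e : (x + v) ^ d = x ^ d
    · rw [b v v0 e, add_right_comm, add_eq_right, CharTwo.add_eq_zero] at q
      exact hw'.1.2.2 q.symm
    · have := hv _ ((c5 _).2 (.inl ⟨h', e⟩))
      rw [add_assoc, aa, add_zero] at this
      exact xC this
  obtain ⟨y, hy, yu⟩ := exists_mem_ne (s := O d u) (by rw [hO u u0]; omega) u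
  replace hy := (mem_filter.1 hy).2
  have e1 := (k2 _ _ ((a y hy).trans (a u rfl).symm)).resolve_left (by simpa using yu)
  rw [show x + y + v + (x + u + v) = y + u by
    linear_combination (x + v) * CharTwo.two_eq_zero (R := F), a y hy,
    (k2 _ _ hy).resolve_left yu, hy] at e1
  exact hw'.1.2.2 e1.symm

end Pool.Agent.H.MP_3242d6_co
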